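import Pool.Agent.MP_1246c0_nt.H25.SpecA
import Pool.Agent.MP_1246c0_nt.H80.QF

/-! Maximal isotropic subgroups. -/

namespace Pool.Agent.MP_1246c0_nt.H25

open Pool.Agent.MP_1246c0_nt.H12

namespace ISO

variable {A : Type} [AddCommGroup A]

/-- the pairing of `U` with the quotient by `W` -/
def pr (U W : AddSubgroup A) (B : A →+ A →+ F2) (h : ∀ x ∈ U, ∀ w ∈ W, B x w = 0) :
    U →+ (A ⧸ W →+ F2) :=
  AddMonoidHom.mk' (fun x => QuotientAddGroup.lift W (B x) (h x x.2)) fun x y => by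
    refine QuotientAddGroup.addMonoidHom_ext _ ?_
    ext a
    simp

theorem pr_mk (U W : AddSubgroup A) (B : A →+ A →+ F2) (h : ∀ x ∈ U, ∀ w ∈ W, B x w = 0)
    (x : U) (a : A) : pr U W B h x (a : A ⧸ W) = B x a := rfl

end ISO

theorem rowISO : SISO := by
  intro A _ Z U B c hs hZ hU hD h2 hi hc hn
  have hDZ : Db U ≤ Z := by
    rintro _ ⟨x, -, rfl⟩
    exact h2 x
  have hW : ∀ x ∈ U, ∀ w ∈ U ⊔ Z, B x w = 0 := by
    intro x hx w hw
    obtain ⟨u, hu, z, hz, rfl⟩ := AddSubgroup.mem_sup.1 hw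
    rw [map_add, hU x hx u hu, hs x z, hZ z hz]
    simp
  have hk : (ISO.pr U (U ⊔ Z) B hW).ker = Z.addSubgroupOf U := by
    ext x
    rw [AddMonoidHom.mem_ker, AddSubgroup.mem_addSubgroupOf]
    constructor
    · intro h
      refine hDZ (hD x x.2 ?_)
      ext a
      rw [← ISO.pr_mk U (U ⊔ Z) B hW x a, h]
      rfl
    · intro h
      refine QuotientAddGroup.addMonoidHom_ext _ ?_
      ext a
      show B x a = 0
      rw [hZ x h]
      rfl
  have he : Z.addSubgroupOf U = (Db U).addSubgroupOf U := by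
    ext x
    rw [AddSubgroup.mem_addSubgroupOf, AddSubgroup.mem_addSubgroupOf]
    exact ⟨fun h => hD x x.2 (hZ x h), fun h => hDZ h⟩
  have hr : Z.relIndex U = (Db U).relIndex U := by
    unfold AddSubgroup.relIndex
    rw [he]
  have hm : Z.relIndex U * (U ⊔ Z).index = Z.index := by
    rw [← AddSubgroup.relIndex_sup_right]
    exact AddSubgroup.relIndex_mul_index le_sup_right
  have h0 : Z.relIndex U ≠ 0 := fun h => hi (by rw [← hm, h, zero_mul])
  have h1 : (U ⊔ Z).index ≠ 0 := fun h => hi (by rw [← hm, h, mul_zero])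
  have hle : (U ⊔ Z).index ≤ Z.relIndex U := by
    rw [← hr] at hn
    refine Nat.le_of_mul_le_mul_left ?_ (Nat.pos_of_ne_zero h0)
    rw [hm]
    exact hc.trans (by rw [sq]; exact Nat.mul_le_mul hn hn)
  have : Finite (A ⧸ (U ⊔ Z)) := Nat.finite_of_card_ne_zero h1
  have hq : ∀ q : A ⧸ (U ⊔ Z), q + q = 0 := by
    intro q
    obtain ⟨a, rfl⟩ := QuotientAddGroup.mk_surjective q
    rw [← QuotientAddGroup.mk_add, QuotientAddGroup.eq_zero_iff, ← two_nsmul]
    exact AddSubgroup.mem_sup_right (h2 a)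
  have : Finite (A ⧸ (U ⊔ Z) →+ F2) := DFunLike.finite _
  have ht : (ISO.pr U (U ⊔ Z) B hW).range = ⊤ := by
    refine AddSubgroup.eq_top_of_le_card _ ?_
    rw [QF.card_dual hq, ← AddSubgroup.index_ker, hk]
    exact hle
  have hsj := AddMonoidHom.range_eq_top.1 ht
  refine ⟨fun lam hlZ hlU => ?_, fun y hy => ?_⟩
  · have hl : ∀ w ∈ U ⊔ Z, lam w = 0 := by
      intro w hw
      obtain ⟨u, hu, z, hz, rfl⟩ := AddSubgroup.mem_sup.1 hw
      rw [map_add, hlU u hu, hlZ z hz, add_zero]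
    obtain ⟨x, hx⟩ := hsj (QuotientAddGroup.lift (U ⊔ Z) lam hl)
    refine ⟨x, x.2, ?_⟩
    ext a
    rw [← ISO.pr_mk U (U ⊔ Z) B hW x a, hx]
    rfl
  · have hy0 : (y : A ⧸ (U ⊔ Z)) = 0 := by
      by_contra hne
      obtain ⟨μ, hμ⟩ := QF.exd hq hne
      obtain ⟨x, rfl⟩ := hsj μ
      rw [ISO.pr_mk, hs, hy] at hμ
      exact zero_ne_one hμ
    obtain ⟨u, hu, z, hz, rfl⟩ := AddSubgroup.mem_sup.1 ((QuotientAddGroup.eq_zero_iff _).1 hy0)
    rw [map_add, hZ z hz, add_zero] at hy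
    exact Z.add_mem (hDZ (hD u hu hy)) hz

end Pool.Agent.MP_1246c0_nt.H25
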